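import Pool.Agent.helper64.OT.SpecF

/-!
# Row ot:MOI (MP_f6e9a2_nt), spec Pool/Agent/helper64/OT/SpecF.lean
-/

set_option autoImplicit false

namespace Pool.Agent.OT

open Finset

theorem MOI : MOI_stmt := by
  intro p _ χ X Y a b c d V hX hY hV β hβ
  have hn : ∀ u : ZMod p, ‖χ u‖ ≤ 1 := fun u => DirichletCharacter.norm_le_one χ u
  have h1 := hV (fun y => β y * χ ((c * y + d)⁻¹)) (fun y => by
    rw [norm_mul]
    exact mul_le_one₀ (hβ y) (norm_nonneg _) (hn _))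
  refine le_trans (Finset.sum_le_sum fun x hx => ?_) h1
  have h2 : ∑ y ∈ Y, β y * χ ((a * x + b) / (c * x + d) - (a * y + b) / (c * y + d)) =
      (χ (a * d - b * c) * χ ((c * x + d)⁻¹)) * ∑ y ∈ Y, (β y * χ ((c * y + d)⁻¹)) * χ (x - y) := by
    rw [Finset.mul_sum]
    refine Finset.sum_congr rfl fun y hy => ?_
    have h3 : (a * x + b) / (c * x + d) - (a * y + b) / (c * y + d) =
        (a * d - b * c) * (c * x + d)⁻¹ * ((x - y) * (c * y + d)⁻¹) := by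
      have hx0 := hX x hx
      have hy0 := hY y hy
      rw [div_sub_div _ _ hx0 hy0, div_eq_mul_inv, mul_inv]
      ring
    rw [h3, map_mul, map_mul, map_mul]
    ring
  rw [h2, norm_mul, norm_mul]
  have h4 : ‖χ (a * d - b * c)‖ * ‖χ ((c * x + d)⁻¹)‖ ≤ 1 :=
    mul_le_one₀ (hn _) (norm_nonneg _) (hn _)
  calc ‖χ (a * d - b * c)‖ * ‖χ ((c * x + d)⁻¹)‖ * ‖∑ y ∈ Y, (β y * χ ((c * y + d)⁻¹)) * χ (x - y)‖
      ≤ 1 * ‖∑ y ∈ Y, (β y * χ ((c * y + d)⁻¹)) * χ (x - y)‖ :=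
        mul_le_mul_of_nonneg_right h4 (norm_nonneg _)
    _ = _ := one_mul _

end Pool.Agent.OT
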